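import Pool.Agent.Lib.MP_17d4d1_pr.C.Iface

set_option autoImplicit false

/-!
# The third function depends on three chains (MP_17d4d1_pr)

The weights are disintegrated along the three chains, one after the other; on the pieces the third
function is constant.
-/

namespace Pool.Agent.Lib.MP_17d4d1_pr.C.H23

open Finset Pool.Agent.Lib.MP_17d4d1_pr Pool.Agent.Lib.MP_17d4d1_pr.S
open Pool.Agent.Lib.MP_17d4d1_pr.C

/-- A function that is constant on the support factors out. -/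
theorem ex_const_on {X : Type} [Fintype X] [DecidableEq X] {v h : Finset X → ℝ}
    (hv : FKGW v) (hc : ∀ A B, v A ≠ 0 → v B ≠ 0 → h A = h B) (u : Finset X → ℝ) :
    Ex v (u * h) = Ex v h * Ex v u := by
  obtain ⟨A₀, hA₀⟩ : ∃ A, v A ≠ 0 := by
    by_contra hcon
    push Not at hcon
    have h1 := hv.sum
    rw [sum_eq_zero fun A _ => hcon A] at h1
    exact zero_ne_one h1
  have h1 : Ex v h = h A₀ := by
    rw [Ex_congr (v := fun _ => h A₀) fun A hA => hc A A₀ hA hA₀, Ex_const hv.sum]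
  have h2 : Ex v (u * h) = h A₀ * Ex v u := by
    rw [← Ex_smul]
    refine Ex_congr fun A hA => ?_
    rw [Pi.mul_apply, hc A A₀ hA hA₀, mul_comm]
  rw [h1, h2]

theorem base (h1 : STEP_S) (h2 : THREEP_S) : BASE_S := by
  intro X _ _ w f g h Y₁ Y₂ Y₃ hw hf hg hh c1 c2 c3 hdep
  -- first chain
  obtain ⟨S1, i1, l1, r1, v1, hr1, hs1, hv1, hh1, he1, hsub1, hcon1⟩ :=
    h1 X Y₁ Unit (fun _ => w) (fun _ => hw) (fun _ _ _ => hw.lsm)
      (fun _ _ A B hA hB => c1 A hA B hB)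
  -- second chain
  obtain ⟨S2, i2, l2, r2, v2, hr2, hs2, hv2, hh2, he2, hsub2, hcon2⟩ :=
    h1 X Y₂ S1 (fun x => v1 () x) (fun x => hv1 () x) (fun s t hst => hh1 () () s t le_rfl hst)
      (fun s t A B hA hB => c2 A (hsub1 _ _ _ hA) B (hsub1 _ _ _ hB))
  -- third chain
  obtain ⟨S3, i3, l3, r3, v3, hr3, hs3, hv3, hh3, he3, hsub3, hcon3⟩ :=
    h1 X Y₃ (S1 × S2) (fun p => v2 p.1 p.2) (fun p => hv2 p.1 p.2)
      (fun s t hst => hh2 s.1 t.1 s.2 t.2 (Prod.le_def.1 hst).1 (Prod.le_def.1 hst).2)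
      (fun s t A B hA hB => c3 A (hsub1 _ _ _ (hsub2 _ _ _ hA)) B (hsub1 _ _ _ (hsub2 _ _ _ hB)))
  -- the pieces
  obtain ⟨W, hW⟩ : ∃ W : S1 × S2 × S3 → Finset X → ℝ, ∀ p, W p = v3 (p.1, p.2.1) p.2.2 :=
    ⟨_, fun _ => rfl⟩
  have hWF : ∀ p, FKGW (W p) := fun p => by rw [hW]; exact hv3 _ _
  have hWH : ∀ p q, p ≤ q → Hol (W p) (W q) := fun p q hpq => by
    rw [hW, hW]
    exact hh3 _ _ _ _ ⟨hpq.1, hpq.2.1⟩ hpq.2.2
  have hex : ∀ u, Ex w u = E3p r1 r2 r3 (fun p => Ex (W p) u) := fun u => by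
    rw [he1 () u, E3p]
    refine sum_congr rfl fun x _ => ?_
    rw [he2 x u, mul_sum]
    refine sum_congr rfl fun y _ => ?_
    rw [he3 (x, y) u, mul_sum, mul_sum]
    refine sum_congr rfl fun z _ => ?_
    rw [hW]
    ring
  have hconst : ∀ p A B, W p A ≠ 0 → W p B ≠ 0 → h A = h B := fun p A B hA hB => by
    rw [hW] at hA hB
    have e3 : A ∩ Y₃ = B ∩ Y₃ := hcon3 _ _ A B hA hB
    have e2 : A ∩ Y₂ = B ∩ Y₂ := hcon2 _ _ A B (hsub3 _ _ _ hA) (hsub3 _ _ _ hB)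
    have e1 : A ∩ Y₁ = B ∩ Y₁ := hcon1 _ _ A B (hsub2 _ _ _ (hsub3 _ _ _ hA))
      (hsub2 _ _ _ (hsub3 _ _ _ hB))
    rw [← hdep A, ← hdep B, inter_union_distrib_left, inter_union_distrib_left,
      inter_union_distrib_left, inter_union_distrib_left, e1, e2, e3]
  have hmo : ∀ u : Finset X → ℝ, (∀ A, 0 ≤ u A) → Monotone u → Mo (fun p => Ex (W p) u) :=
    fun u hu0 hu => ⟨fun p => Ex_nonneg (hWF p).nn hu0, fun p q hpq =>
      Ex_le (hWF p).nn (hWF q).nn (hWF p).sum (hWF q).sum (hWH p q hpq) hu0 hu⟩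
  have key := h2 S1 S2 S3 r1 r2 r3 hr1 hr2 hr3 hs1 hs2 hs3 (fun p => Ex (W p) h)
    (fun p => Ex (W p) (f * g)) (fun p => Ex (W p) f) (fun p => Ex (W p) g)
    (hmo h hh.nn hh.mono)
    (hmo (f * g) (fun A => mul_nonneg (hf.nn A) (hg.nn A)) (mono_mul hf.nn hf.mono hg.nn hg.mono))
    (hmo f hf.nn hf.mono) (hmo g hg.nn hg.mono)
    (fun p => Ex_fkg (hWF p).nn (hWF p).sum (hWF p).lsm hf.nn hf.mono hg.nn hg.mono)
  have hmul : ∀ u : Finset X → ℝ, ((fun p => Ex (W p) h) * fun p => Ex (W p) u)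
      = fun p => Ex (W p) (u * h) := fun u => by
    funext p
    rw [Pi.mul_apply, ex_const_on (hWF p) (hconst p) u]
  rw [hmul, hmul, hmul, ← hex, ← hex, ← hex, ← hex, ← hex, ← hex, ← hex] at key
  unfold E3
  linarith

end Pool.Agent.Lib.MP_17d4d1_pr.C.H23
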